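import Pool.Agent.Helper30.FB12

/-!
# Finitely based laws and subgroups of index three

There are a group `G`, all of whose laws follow from a single law, and a normal subgroup `H` of
index three in `G` such that no finite set of laws of `H` implies all the laws of `H`, even if one
looks only at finite groups.
-/

set_option autoImplicit false

universe u

namespace Pool.Agent.Results.MP_7925a1_al.IndexThree

/-- The word `w` is a law of the group `X`: every homomorphism from the free group on the
generators `x_0, x_1, ...` to `X` sends `w` to `1`. -/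
def IsLaw (w : FreeGroup ℕ) (X : Type u) [Group X] : Prop :=
  ∀ f : FreeGroup ℕ →* X, f w = 1

theorem finite_LA (T X : Type) [Finite T] [Finite X] : Finite (Helper30.FB.LA T X) := by
  have : Finite (Helper30.FB.Dm T X) := by
    unfold Helper30.FB.Dm
    infer_instance
  exact Finite.of_injective (fun g : Helper30.FB.LA T X => (g : Helper30.FB.Dm T X → Helper30.FB.Dm T X))
    DFunLike.coe_injective

theorem finite_Ln (n : ℕ) : Finite (Helper30.FB.Ln n) := by
  have h0 : Finite (Helper30.FB.TT n) := Finite.of_fintype _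
  have h1 : Finite (Multiplicative (Fin n → ZMod 2)) :=
    Finite.of_equiv (Fin n → ZMod 2) Multiplicative.ofAdd
  have h2 : Finite (Helper30.FB.LA (Helper30.FB.TT n) (Multiplicative (Fin n → ZMod 2))) :=
    finite_LA _ _
  have h3 : Finite (Helper30.FB.YY (Helper30.FB.TT.xi n) (Helper30.FB.TT.gam n)) :=
    Subtype.finite
  have h4 : Finite (Helper30.FB.Dm (Helper30.FB.TT n) (Multiplicative (Fin n → ZMod 2))) := by
    unfold Helper30.FB.Dm
    infer_instance
  have h5 : Finite (Multiplicative (Helper30.FB.Dm (Helper30.FB.TT n) (Multiplicative (Fin n → ZMod 2)) ×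
      Helper30.FB.Dm (Helper30.FB.TT n) (Multiplicative (Fin n → ZMod 2)))) :=
    Finite.of_equiv _ Multiplicative.ofAdd
  have h6 : Finite Helper30.FB.C3 := Finite.of_equiv (ZMod 3) Multiplicative.ofAdd
  exact Finite.of_equiv _ SemidirectProduct.equivProd.symm

theorem isLaw_of_mem {S : Set (FreeGroup ℕ)} {X : Type u} [Group X]
    (h : ∀ s ∈ S, IsLaw s X) {w : FreeGroup ℕ} (hw : w ∈ Helper30.FB.FI S) : IsLaw w X := by
  intro f
  have : Helper30.FB.FI S ≤ f.ker := by
    rw [Helper30.FB.FI, Subgroup.closure_le]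
    rintro w ⟨s, hs, φ, rfl⟩
    exact h s hs (f.comp φ)
  exact this hw

theorem index_HH : Helper30.FB.HH.index = 3 := by
  have hsurj : Function.Surjective (Helper30.FB.pi2.comp
      (MonoidHom.snd Helper30.FB.G1 Helper30.FB.G2)) := by
    intro c
    have h1 : Helper30.FB.psi0 (FreeGroup.of (Multiplicative.toAdd c).val) = c := by
      rw [Helper30.FB.psi0_of, ZMod.natCast_val, ZMod.cast_id]
      rfl
    refine ⟨(1, QuotientGroup.mk (FreeGroup.of (Multiplicative.toAdd c).val)), ?_⟩
    exact h1
  unfold Helper30.FB.HH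
  rw [Subgroup.index_ker, MonoidHom.range_eq_top.2 hsurj, Subgroup.card_top]
  change Nat.card (Multiplicative (ZMod 3)) = 3
  rw [Nat.card_congr Multiplicative.toAdd, Nat.card_zmod]

/-- There are a group `G` and a normal subgroup `H` of index three in `G` such that all laws of `G`
follow from one law of `G`, but for every finite set `S` of laws of `H` there is a finite group in
which all words of `S` are laws and some law of `H` fails. -/
theorem result :
    ∃ (G : Type) (_ : Group G) (H : Subgroup G), H.Normal ∧ H.index = 3 ∧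
      (∃ s : FreeGroup ℕ, IsLaw s G ∧
        ∀ (X : Type u) [Group X], IsLaw s X → ∀ w : FreeGroup ℕ, IsLaw w G → IsLaw w X) ∧
      ∀ S : Finset (FreeGroup ℕ), (∀ s ∈ S, IsLaw s H) →
        ∃ (X : Type) (_ : Group X), Finite X ∧ (∀ s ∈ S, IsLaw s X) ∧
          ∃ w : FreeGroup ℕ, IsLaw w H ∧ ¬ IsLaw w X := by
  refine ⟨Helper30.FB.GG, inferInstance, Helper30.FB.HH, ?_, index_HH, ?_, ?_⟩
  · unfold Helper30.FB.HH
    infer_instance
  · refine ⟨Helper30.FB.s0, (Helper30.FB.laws_GG _).2 (Helper30.FB.subset_FI rfl), ?_⟩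
    intro X _ hs w hw
    have h1 := (Helper30.FB.laws_GG w).1 hw
    exact isLaw_of_mem (S := {Helper30.FB.s0}) (by rintro s rfl; exact hs) h1
  · intro S hS
    have h1 : ∀ s ∈ S, s ∈ Helper30.FB.FI Helper30.FB.Sinf := fun s hs =>
      (Helper30.FB.laws_HH s).1 (hS s hs)
    obtain ⟨N, hN⟩ := Helper30.FB.exists_N_finset S h1
    refine ⟨Helper30.FB.Ln (max N 2), inferInstance, finite_Ln _, ?_, Helper30.FB.wk (max N 2), ?_, ?_⟩
    · intro s hs
      exact isLaw_of_mem (S := Helper30.FB.SN (max N 2))
        (fun t ht => Helper30.FB.law_SN (by omega) t ht)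
        (Helper30.FB.FI_mono (Helper30.FB.SN_mono (le_max_left _ _)) (hN s hs))
    · exact (Helper30.FB.laws_HH _).2 (Helper30.FB.subset_FI (Or.inr ⟨max N 2, rfl⟩))
    · exact Helper30.FB.not_law (le_max_right _ _)

end Pool.Agent.Results.MP_7925a1_al.IndexThree
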